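import Pool.Agent.Lib.MP_fecf72_lc.Main

namespace Pool.Agent.Results.MP_fecf72_lc.Consistent

open Pool.Agent.Lib.MP_fecf72_lc

/-- There is a countable transitive model of ZFC in which every set of reals with the Borel Menger
property is countable. -/
theorem result : ∃ M : Set V, M.Countable ∧ IsZFC M ∧
    ∀ X : Set ℝ, setC X ∈ M → SfinBB M X → CtblIn M (setC X) := main

end Pool.Agent.Results.MP_fecf72_lc.Consistent
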