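import Pool.Agent.Lib.MP_fecf72_lc.HM.Main

namespace Pool.Agent.Results.MP_fecf72_lc.HereditarilyMenger

open Pool.Agent.Lib.MP_fecf72_lc

/-- There is a countable transitive model of ZFC in which every hereditarily Menger set of reals
is countable. -/
theorem result : ∃ M : Set V, M.Countable ∧ IsZFC M ∧ ∀ X : Set ℝ, setC X ∈ M →
    (∀ Y ⊆ X, setC Y ∈ M → HM.MengerIn M Y) → CtblIn M (setC X) := HM.main

end Pool.Agent.Results.MP_fecf72_lc.HereditarilyMenger
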